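import Pool.Agent.K1H2.UB.Stm2

/-!
# Lattice sum of the Green function of the ball
-/

set_option autoImplicit false

open Finset MeasureTheory Pool.Agent.K1H53.BI Pool.Agent.H283R3.Newt Pool.Agent.K1H2.UB

namespace Pool.Agent.K1H52.UB

lemma len_rv (x : V) : len (rv x) = nrm x := by
  unfold len nrm q rv nsq
  congr 1
  push_cast
  refine Finset.sum_congr rfl fun i _ => ?_
  rw [Nat.cast_natAbs, Int.cast_abs, sq_abs]

lemma rv_sub (y z : V) : rv y - rv z = rv (y - z) := by
  funext i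
  simp [rv]

lemma natAbs_le_of_nsq {x : V} {N : ℕ} (h : nsq x ≤ N ^ 2) (i : Fin 3) : |x i| ≤ (N : ℤ) := by
  have h1 : (x i).natAbs ^ 2 ≤ nsq x :=
    Finset.single_le_sum (f := fun i => (x i).natAbs ^ 2) (fun _ _ => Nat.zero_le _)
      (Finset.mem_univ i)
  have h2 : (x i).natAbs ≤ N := by
    have := h1.trans h
    exact (Nat.pow_le_pow_iff_left (by norm_num)).1 this
  rw [Int.abs_eq_natAbs]
  exact_mod_cast h2

lemma nsq_of_nrm {x : V} {N : ℕ} (h : nrm x ≤ N) : nsq x ≤ N ^ 2 := by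
  unfold nrm at h
  rw [Real.sqrt_le_left (by positivity)] at h
  exact_mod_cast h

lemma nrm_of_nsq {x : V} {N : ℕ} (h : nsq x ≤ N ^ 2) : nrm x ≤ N := by
  unfold nrm
  rw [Real.sqrt_le_left (by positivity)]
  exact_mod_cast h

lemma one_le_nrm {x : V} (h : x ≠ 0) : 1 ≤ nrm x := by
  have h1 : 1 ≤ nsq x := by
    by_contra hc
    have h0 : nsq x = 0 := by omega
    apply h
    funext i
    have h2 : (x i).natAbs ^ 2 = 0 := by
      unfold nsq at h0
      exact (Finset.sum_eq_zero_iff.1 h0) i (Finset.mem_univ i)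
    have h3 : (x i).natAbs = 0 := by
      exact pow_eq_zero_iff (two_ne_zero) |>.1 h2
    simpa using h3
  unfold nrm
  rw [show (1 : ℝ) = Real.sqrt 1 by simp]
  apply Real.sqrt_le_sqrt
  exact_mod_cast h1

/-- One cube. -/
lemma cube_bd (hG : S_GEO) {C0 : ℝ} (hC0 : 1 ≤ C0)
    (hcube : ∀ (y : V) (p : Fin 3 → ℝ), 3 ≤ len (rv y - p) →
    IntegrableOn (fun x => (dist (pt p) x)⁻¹) (cube y) ∧
    |(∫ x in cube y, (dist (pt p) x)⁻¹) - 1 / len (rv y - p)| ≤ C0 / len (rv y - p) ^ 3)
    {N : ℕ} {z : V} (hR : Reg 10 N z) {y : V} (hy : nrm y ≤ N)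
    (hs : 3 ≤ len (rv y - rv z)) :
    max (vv N z (rv y)) 0 ≤ (∫ x in cube y, max (gv N z x) 0) +
      32001 * C0 * (1 / len (rv y - rv z) ^ 3) := by
  obtain ⟨hk1, hk4, -, -, -, hw, -⟩ := hG N z hR
  obtain ⟨h5, h6⟩ := hw (rv y) (by rw [len_rv]; linarith)
  have hbig := hR.big
  have hs' : 3 ≤ len (rv y - zs N z) := by linarith
  obtain ⟨i1, b1⟩ := hcube y (rv z) hs
  obtain ⟨i2, b2⟩ := hcube y (zs N z) hs'
  set s := len (rv y - rv z) with hsdef
  set s' := len (rv y - zs N z) with hs'def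
  have hs0 : 0 < s := by linarith
  have hs'0 : 0 < s' := by linarith
  have ig : IntegrableOn (gv N z) (cube y) := by
    unfold gv
    exact i1.sub (i2.const_mul _)
  have im : IntegrableOn (fun x => max (gv N z x) 0) (cube y) := ig.pos_part
  have e1 : ∫ x in cube y, gv N z x =
      (∫ x in cube y, (dist (pt (rv z)) x)⁻¹) -
        kap N z * ∫ x in cube y, (dist (pt (zs N z)) x)⁻¹ := by
    unfold gv
    rw [integral_sub i1 (i2.const_mul _), integral_const_mul]
  have m1 : ∫ x in cube y, gv N z x ≤ ∫ x in cube y, max (gv N z x) 0 :=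
    integral_mono ig im (fun x => le_max_left _ _)
  have m2 : 0 ≤ ∫ x in cube y, max (gv N z x) 0 :=
    integral_nonneg (fun x => le_max_right _ _)
  have a1 := abs_le.1 b1
  have a2 := abs_le.1 b2
  have h7 : 1 / s' ^ 3 ≤ 8000 * (1 / s ^ 3) := by
    rw [mul_one_div, div_le_div_iff₀ (by positivity) (by positivity)]
    have : s ^ 3 ≤ (20 * s') ^ 3 := pow_le_pow_left₀ hs0.le h6 3
    nlinarith [this]
  have h8 : kap N z * (C0 / s' ^ 3) ≤ 32000 * C0 * (1 / s ^ 3) := by
    have h9 : C0 / s' ^ 3 ≤ C0 * (8000 * (1 / s ^ 3)) := by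
      rw [div_eq_mul_one_div]
      exact mul_le_mul_of_nonneg_left h7 (by linarith)
    have h10 : 0 ≤ C0 / s' ^ 3 := by positivity
    calc kap N z * (C0 / s' ^ 3) ≤ 4 * (C0 / s' ^ 3) := mul_le_mul_of_nonneg_right hk4 h10
      _ ≤ 4 * (C0 * (8000 * (1 / s ^ 3))) := by linarith
      _ = 32000 * C0 * (1 / s ^ 3) := by ring
  have h11 : kap N z * (∫ x in cube y, (dist (pt (zs N z)) x)⁻¹) ≤
      kap N z * (1 / s' + C0 / s' ^ 3) :=
    mul_le_mul_of_nonneg_left (by linarith [a2.2]) (by linarith)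
  have hv : vv N z (rv y) = 1 / s - kap N z * (1 / s') := by
    unfold vv
    rw [← hsdef, ← hs'def]
    ring
  have h12 : C0 / s ^ 3 = C0 * (1 / s ^ 3) := by ring
  have h13 : 0 ≤ C0 * (1 / s ^ 3) := by positivity
  apply max_le
  · rw [hv]
    nlinarith [a1.1, h8, h11, m1, e1]
  · nlinarith [m2, h13]

theorem t_INT : S_INT := by
  intro hG hSh hCu hCs
  obtain ⟨C0, hC0, hcube⟩ := hCu
  refine ⟨156 + 32001 * C0 * 52, by linarith, ?_⟩
  intro N z hR0
  have hR : Reg 10 N z := ⟨hR0.far, by have := hR0.big; linarith⟩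
  have hbig := hR.big
  unfold dl at hbig
  have hz0 : 0 ≤ nrm z := Real.sqrt_nonneg _
  have hN1 : (1 : ℝ) ≤ N := by linarith
  have hzN : ∀ i, |z i| ≤ (N : ℤ) := natAbs_le_of_nsq (nsq_of_nrm (by linarith))
  obtain ⟨hk1, hk4, -, -, -, hw, -⟩ := hG N z hR
  have hmem : ∀ y ∈ (ballF N).erase z, y ≠ z ∧ nsq y ≤ N ^ 2 := by
    intro y hy
    rw [Finset.mem_erase] at hy
    refine ⟨hy.1, ?_⟩
    have := hy.2
    unfold ballF at this
    exact (Finset.mem_filter.1 this).2
  set A := ((ballF N).erase z).filter (fun y => 3 ≤ len (rv y - rv z)) with hA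
  set B := ((ballF N).erase z).filter (fun y => ¬ 3 ≤ len (rv y - rv z)) with hB
  have hsplit : ∑ y ∈ (ballF N).erase z, max (vv N z (rv y)) 0 =
      ∑ y ∈ A, max (vv N z (rv y)) 0 + ∑ y ∈ B, max (vv N z (rv y)) 0 :=
    (Finset.sum_filter_add_sum_filter_not _ _ _).symm
  -- near points
  have hBsum : ∑ y ∈ B, max (vv N z (rv y)) 0 ≤ 156 := by
    have h1 : ∀ y ∈ B, max (vv N z (rv y)) 0 ≤ 1 / nrm (y - z) := by
      intro y hy
      have hy' := Finset.mem_filter.1 hy
      have h2 := hmem y hy'.1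
      have h3 : 1 ≤ nrm (y - z) := one_le_nrm (sub_ne_zero.2 h2.1)
      apply max_le
      · unfold vv
        rw [rv_sub, len_rv]
        have : 0 ≤ kap N z / len (rv y - zs N z) :=
          div_nonneg (by linarith) (Real.sqrt_nonneg _)
        linarith
      · positivity
    refine (Finset.sum_le_sum h1).trans ?_
    have hinj : Set.InjOn (fun y : V => y - z) (B : Set V) := by
      intro a _ b _ hab
      simpa using hab
    have h4 : ∑ y ∈ B, 1 / nrm (y - z) = ∑ w ∈ B.image (fun y => y - z), 1 / nrm w := by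
      rw [Finset.sum_image hinj]
    rw [h4]
    have h5 := (hSh 3 (B.image (fun y => y - z)) ?_).1
    · norm_num at h5 ⊢
      linarith
    · intro w hw
      obtain ⟨y, hy, rfl⟩ := Finset.mem_image.1 hw
      have hy' := Finset.mem_filter.1 hy
      have h2 := hmem y hy'.1
      refine ⟨sub_ne_zero.2 h2.1, ?_⟩
      apply natAbs_le_of_nsq
      apply nsq_of_nrm
      have h6 := hy'.2
      rw [rv_sub, len_rv, not_le] at h6
      push_cast
      exact h6.le
  -- far points
  have hAsum : ∑ y ∈ A, max (vv N z (rv y)) 0 ≤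
      2 * Real.pi / 3 * (rho N z ^ 2 - nrm z ^ 2) + 32001 * C0 * (52 * N) := by
    have h1 : ∀ y ∈ A, max (vv N z (rv y)) 0 ≤ (∫ x in cube y, max (gv N z x) 0) +
        32001 * C0 * (1 / nrm (y - z) ^ 3) := by
      intro y hy
      have hy' := Finset.mem_filter.1 hy
      have h2 := hmem y hy'.1
      have h3 := cube_bd hG hC0 hcube hR (nrm_of_nsq h2.2) hy'.2
      rw [rv_sub, len_rv] at h3
      exact h3
    refine (Finset.sum_le_sum h1).trans ?_
    rw [Finset.sum_add_distrib, ← Finset.mul_sum]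
    have h2 : ∑ y ∈ A, ∫ x in cube y, max (gv N z x) 0 ≤
        2 * Real.pi / 3 * (rho N z ^ 2 - nrm z ^ 2) := by
      apply hCs N z hR A
      · intro y hy
        exact Finset.mem_of_mem_erase (Finset.mem_filter.1 hy).1
      · intro y hy
        exact (Finset.mem_filter.1 hy).2
    have hinj : Set.InjOn (fun y : V => y - z) (A : Set V) := by
      intro a _ b _ hab
      simpa using hab
    have h4 : ∑ y ∈ A, 1 / nrm (y - z) ^ 3 = ∑ w ∈ A.image (fun y => y - z), 1 / nrm w ^ 3 := by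
      rw [Finset.sum_image hinj]
    have h5 := (hSh (2 * N) (A.image (fun y => y - z)) ?_).2
    · have h6 : ∑ y ∈ A, 1 / nrm (y - z) ^ 3 ≤ 52 * (N : ℝ) := by
        rw [h4]
        push_cast at h5
        linarith
      have h7 : 32001 * C0 * ∑ y ∈ A, 1 / nrm (y - z) ^ 3 ≤ 32001 * C0 * (52 * N) :=
        mul_le_mul_of_nonneg_left h6 (by positivity)
      linarith
    · intro w hw
      obtain ⟨y, hy, rfl⟩ := Finset.mem_image.1 hw
      have hy' := Finset.mem_filter.1 hy
      have h2 := hmem y hy'.1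
      refine ⟨sub_ne_zero.2 h2.1, ?_⟩
      intro i
      have h8 := natAbs_le_of_nsq h2.2 i
      have h9 := hzN i
      have h10 : |(y - z) i| ≤ |y i| + |z i| := by
        rw [Pi.sub_apply]
        exact abs_sub _ _
      push_cast
      linarith
  rw [hsplit]
  nlinarith [hAsum, hBsum, hN1]

end Pool.Agent.K1H52.UB
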