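import Pool.Agent.K1H2.UB.Stm

/-!
# The kernel
-/

set_option autoImplicit false

open Finset Pool.Agent.K1H53.BI Pool.Agent.K1H2.UB

namespace Pool.Agent.K1H52.UB.KER

lemma le_sq {a b : ℝ} (h : a ^ 2 ≤ b ^ 2) (hb : 0 ≤ b) : a ≤ b := by
  by_contra hc
  push Not at hc
  nlinarith

def l1 (x : V) : ℕ := ∑ i, (x i).natAbs

noncomputable def f1 (x : V) : ℝ := 6 ^ 6 * (1 / 6 : ℝ) ^ l1 x

noncomputable def f2 (x : V) : ℝ := if 9 ≤ nsq x then 1 / Real.sqrt ((nsq x : ℝ) - 2) else 0

noncomputable def kk (x : V) : ℝ := max (f1 x) (f2 x)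

lemma f1_pos (x : V) : 0 < f1 x := by unfold f1; positivity

lemma f2_nonneg (x : V) : 0 ≤ f2 x := by
  unfold f2
  split_ifs
  · positivity
  · exact le_rfl

lemma dir_ne {x : V} {i j : Fin 3} (h : j ≠ i) (b : Bool) : (x + dir (i, b)) j = x j := by
  simp [dir, h]

/-- inward step -/
lemma inward (x : V) (i : Fin 3) (h : x i ≠ 0) : ∃ b : Bool, l1 (x + dir (i, b)) + 1 = l1 x ∧
    nsq (x + dir (i, b)) + 2 * (x i).natAbs = nsq x + 1 := by
  obtain ⟨b, hb⟩ : ∃ b : Bool, ((x + dir (i, b)) i).natAbs + 1 = (x i).natAbs := by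
    rcases lt_or_gt_of_ne h with h | h
    · refine ⟨true, ?_⟩
      simp [dir]
      omega
    · refine ⟨false, ?_⟩
      simp [dir]
      omega
  refine ⟨b, ?_, ?_⟩
  · unfold l1
    rw [← Finset.add_sum_erase _ _ (Finset.mem_univ i),
      ← Finset.add_sum_erase (Finset.univ) (fun j => (x j).natAbs) (Finset.mem_univ i)]
    have e : ∑ j ∈ Finset.univ.erase i, ((x + dir (i, b)) j).natAbs =
        ∑ j ∈ Finset.univ.erase i, (x j).natAbs :=
      Finset.sum_congr rfl fun j hj => by rw [dir_ne (Finset.ne_of_mem_erase hj)]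
    rw [e]
    omega
  · unfold nsq
    rw [← Finset.add_sum_erase _ _ (Finset.mem_univ i),
      ← Finset.add_sum_erase (Finset.univ) (fun j => (x j).natAbs ^ 2) (Finset.mem_univ i)]
    have e : ∑ j ∈ Finset.univ.erase i, ((x + dir (i, b)) j).natAbs ^ 2 =
        ∑ j ∈ Finset.univ.erase i, (x j).natAbs ^ 2 :=
      Finset.sum_congr rfl fun j hj => by rw [dir_ne (Finset.ne_of_mem_erase hj)]
    rw [e]
    rw [← hb]
    ring

/-- the neighbours of a point of squared norm at least 16 -/
lemma nbr (x : V) (h : 16 ≤ nsq x) (e : Fin 3 × Bool) : 9 ≤ nsq (x + dir e) := by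
  obtain ⟨i, b⟩ := e
  have hb : (x i).natAbs ≤ ((x + dir (i, b)) i).natAbs + 1 := by
    cases b <;> simp [dir] <;> omega
  unfold nsq at h ⊢
  rw [← Finset.add_sum_erase _ _ (Finset.mem_univ i)] at h ⊢
  have e : ∑ j ∈ Finset.univ.erase i, ((x + dir (i, b)) j).natAbs ^ 2 =
      ∑ j ∈ Finset.univ.erase i, (x j).natAbs ^ 2 :=
    Finset.sum_congr rfl fun j hj => by rw [dir_ne (Finset.ne_of_mem_erase hj)]
  rw [e]
  set c := (x i).natAbs
  set c' := ((x + dir (i, b)) i).natAbs
  set r := ∑ j ∈ Finset.univ.erase i, (x j).natAbs ^ 2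
  by_cases h3 : 3 ≤ c'
  · nlinarith
  · have h4 : c ^ 2 ≤ (c' + 1) ^ 2 := Nat.pow_le_pow_left hb 2
    have h5 : c' ≤ 2 := by omega
    nlinarith

lemma nsq_pos {x : V} (h : x ≠ 0) : 1 ≤ nsq x := by
  by_contra hc
  have h0 : nsq x = 0 := by omega
  apply h
  funext i
  have h2 : (x i).natAbs ^ 2 = 0 := by
    unfold nsq at h0
    exact (Finset.sum_eq_zero_iff.1 h0) i (Finset.mem_univ i)
  have h3 : (x i).natAbs = 0 := (pow_eq_zero_iff two_ne_zero).1 h2
  simpa using h3

lemma l1_sq (x : V) : l1 x ^ 2 ≤ 3 * nsq x := by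
  unfold l1 nsq
  rw [Fin.sum_univ_three, Fin.sum_univ_three]
  generalize (x 0).natAbs = a
  generalize (x 1).natAbs = b
  generalize (x 2).natAbs = c
  zify
  nlinarith [sq_nonneg ((a : ℤ) - b), sq_nonneg ((a : ℤ) - c), sq_nonneg ((b : ℤ) - c)]

lemma nsq_le (x : V) : nsq x ≤ l1 x ^ 2 := by
  unfold l1 nsq
  rw [Fin.sum_univ_three, Fin.sum_univ_three]
  nlinarith [Nat.zero_le ((x 0).natAbs * (x 1).natAbs), Nat.zero_le ((x 0).natAbs * (x 2).natAbs),
    Nat.zero_le ((x 1).natAbs * (x 2).natAbs)]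

lemma f2_le_one (x : V) : f2 x ≤ 1 := by
  unfold f2
  split_ifs with h
  · have h1 : (9 : ℝ) ≤ nsq x := by exact_mod_cast h
    rw [div_le_one (by apply Real.sqrt_pos.2; linarith)]
    rw [show (1 : ℝ) = Real.sqrt 1 by simp]
    apply Real.sqrt_le_sqrt
    linarith
  · norm_num

lemma small (x : V) (h : nsq x < 16) : 1 ≤ f1 x := by
  have h1 := l1_sq x
  have h2 : l1 x ≤ 6 := by
    by_contra hc
    have : 7 ≤ l1 x := by omega
    nlinarith
  unfold f1
  have h3 : (1 / 6 : ℝ) ^ 6 ≤ (1 / 6 : ℝ) ^ l1 x :=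
    pow_le_pow_of_le_one (by norm_num) (by norm_num) h2
  calc (1 : ℝ) = 6 ^ 6 * (1 / 6) ^ 6 := by norm_num
    _ ≤ _ := mul_le_mul_of_nonneg_left h3 (by positivity)

lemma kk_small (x : V) (h : nsq x < 16) : kk x = f1 x :=
  max_eq_left ((f2_le_one x).trans (small x h))

lemma PP_mono {f g : V → ℝ} (h : ∀ x, f x ≤ g x) (x : V) : PP f x ≤ PP g x := by
  unfold PP
  apply div_le_div_of_nonneg_right _ (by norm_num)
  exact Finset.sum_le_sum fun e _ => h _

lemma f1_step {x y : V} (h : l1 y + 1 = l1 x) : f1 y = 6 * f1 x := by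
  unfold f1
  rw [← h, pow_succ]
  ring

lemma exists_ne {x : V} (h : x ≠ 0) : ∃ i, x i ≠ 0 := by
  by_contra hc
  push Not at hc
  exact h (funext hc)

lemma sub1 (x : V) (h : x ≠ 0) : f1 x ≤ PP f1 x := by
  obtain ⟨i, hi⟩ := exists_ne h
  obtain ⟨b, hb, -⟩ := inward x i hi
  unfold PP
  rw [le_div_iff₀ (by norm_num)]
  have h1 := Finset.single_le_sum (f := fun e => f1 (x + dir e)) (fun e _ => (f1_pos _).le)
    (Finset.mem_univ (i, b))
  simp only [f1_step hb] at h1
  linarith

lemma cube_le (n : ℕ) : (n : ℝ) ^ 3 * (1 / 6) ^ n ≤ 1 := by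
  induction n with
  | zero => norm_num
  | succ n ih =>
    by_cases hn : n ≤ 1
    · interval_cases n <;> norm_num
    · have h2 : (2 : ℝ) ≤ n := by exact_mod_cast (show 2 ≤ n by omega)
      have h3 : ((n : ℝ) + 1) ^ 3 ≤ 6 * (n : ℝ) ^ 3 := by nlinarith [sq_nonneg ((n : ℝ) - 2)]
      push_cast
      rw [pow_succ (1 / 6 : ℝ)]
      have h4 : 0 ≤ (1 / 6 : ℝ) ^ n := by positivity
      nlinarith [mul_le_mul_of_nonneg_right h3 h4]

theorem t_KER : S_KER := by
  intro hL
  refine ⟨6 ^ 6, kk, by norm_num, ?_, ?_, ?_, ?_, ?_, ?_⟩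
  · intro x
    exact (f1_pos x).le.trans (le_max_left _ _)
  · intro x
    apply max_le
    · unfold f1
      have : (1 / 6 : ℝ) ^ l1 x ≤ 1 := pow_le_one₀ (by norm_num) (by norm_num)
      nlinarith
    · exact (f2_le_one x).trans (by norm_num)
  · intro x hx
    have h1 : f1 x ≤ PP kk x := (sub1 x hx).trans (PP_mono (fun y => le_max_left _ _) x)
    by_cases h16 : nsq x < 16
    · rw [kk_small x h16]
      exact h1
    · have h16' : 16 ≤ nsq x := by omega
      apply max_le h1
      have h2 := hL x (by omega)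
      have h3 : f2 x = 1 / Real.sqrt ((nsq x : ℝ) - 2) := by
        unfold f2
        rw [if_pos (by omega)]
      rw [h3]
      refine h2.trans ?_
      unfold PP
      apply div_le_div_of_nonneg_right _ (by norm_num)
      apply Finset.sum_le_sum
      intro e _
      have h4 : f2 (x + dir e) = 1 / Real.sqrt ((nsq (x + dir e) : ℝ) - 2) := by
        unfold f2
        rw [if_pos (nbr x h16' e)]
      show 1 / Real.sqrt ((nsq (x + dir e) : ℝ) - 2) ≤ kk (x + dir e)
      rw [← h4]
      exact le_max_right _ _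
  · intro x hx
    have hn := nsq_pos hx
    by_cases h9 : 9 ≤ nsq x
    · refine le_trans ?_ (le_max_right _ _)
      have h3 : f2 x = 1 / Real.sqrt ((nsq x : ℝ) - 2) := by
        unfold f2
        rw [if_pos h9]
      have h9' : (9 : ℝ) ≤ nsq x := by exact_mod_cast h9
      rw [h3]
      unfold nrm
      apply one_div_le_one_div_of_le (Real.sqrt_pos.2 (by linarith))
      apply Real.sqrt_le_sqrt
      linarith
    · refine le_trans ?_ (le_max_left _ _)
      refine le_trans ?_ (small x (by omega))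
      unfold nrm
      have h1 : (1 : ℝ) ≤ nsq x := by exact_mod_cast hn
      rw [div_le_one (by apply Real.sqrt_pos.2; linarith)]
      rw [show (1 : ℝ) = Real.sqrt 1 by simp]
      exact Real.sqrt_le_sqrt h1
  · intro x hx
    have hn := nsq_pos hx
    have h1 : (1 : ℝ) ≤ nsq x := by exact_mod_cast hn
    have hs : 0 < nrm x := Real.sqrt_pos.2 (by linarith)
    have hsq : nrm x ^ 2 = nsq x := Real.sq_sqrt (by linarith)
    apply max_le
    · have h2 : nrm x ≤ l1 x := by
        unfold nrm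
        rw [Real.sqrt_le_left (by positivity)]
        exact_mod_cast nsq_le x
      have h3 : f1 x ≤ 6 ^ 6 / nrm x ^ 3 := by
        rw [le_div_iff₀ (by positivity)]
        have h4 : nrm x ^ 3 ≤ (l1 x : ℝ) ^ 3 := pow_le_pow_left₀ hs.le h2 3
        have h5 := cube_le (l1 x)
        have h6 : f1 x * nrm x ^ 3 ≤ f1 x * (l1 x : ℝ) ^ 3 :=
          mul_le_mul_of_nonneg_left h4 (f1_pos x).le
        refine h6.trans ?_
        unfold f1
        nlinarith
      have h7 : 0 ≤ 1 / nrm x := by positivity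
      linarith
    · unfold f2
      split_ifs with h9
      · have h9' : (9 : ℝ) ≤ nsq x := by exact_mod_cast h9
        have ht : 0 < Real.sqrt ((nsq x : ℝ) - 2) := Real.sqrt_pos.2 (by linarith)
        have htq : Real.sqrt ((nsq x : ℝ) - 2) ^ 2 = (nsq x : ℝ) - 2 := Real.sq_sqrt (by linarith)
        set t := Real.sqrt ((nsq x : ℝ) - 2)
        set s := nrm x
        have h2 : 1 / t ≤ 1 / s + 2 / s ^ 3 := by
          have e : 1 / s + 2 / s ^ 3 = (s ^ 2 + 2) / s ^ 3 := by
            field_simp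
          rw [e, div_le_div_iff₀ ht (by positivity), one_mul]
          apply le_sq ?_ (by positivity)
          have e1 : (s ^ 3) ^ 2 = (s ^ 2) ^ 3 := by ring
          have e2 : ((s ^ 2 + 2) * t) ^ 2 = (s ^ 2 + 2) ^ 2 * t ^ 2 := by ring
          rw [e1, e2, htq, hsq]
          nlinarith
        have h3 : (2 : ℝ) / s ^ 3 ≤ 6 ^ 6 / s ^ 3 :=
          div_le_div_of_nonneg_right (by norm_num) (by positivity)
        linarith
      · positivity
  · intro x hx
    have hn := nsq_pos hx
    have h1 : (1 : ℝ) ≤ nsq x := by exact_mod_cast hn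
    have hs : 0 < nrm x := Real.sqrt_pos.2 (by linarith)
    have hsq : nrm x ^ 2 = nsq x := Real.sq_sqrt (by linarith)
    have hs1 : 1 ≤ nrm x := by nlinarith
    obtain ⟨i, -, hi⟩ := Finset.exists_max_image (Finset.univ : Finset (Fin 3))
      (fun j => (x j).natAbs) ⟨0, Finset.mem_univ _⟩
    have h3a : nsq x ≤ 3 * (x i).natAbs ^ 2 := by
      unfold nsq
      have : ∑ j, (x j).natAbs ^ 2 ≤ ∑ _j : Fin 3, (x i).natAbs ^ 2 :=
        Finset.sum_le_sum fun j hj => Nat.pow_le_pow_left (hi j hj) 2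
      simpa using this
    have hxi : x i ≠ 0 := by
      intro h0
      rw [h0] at h3a
      simp at h3a
      omega
    obtain ⟨b, hb1, hb2⟩ := inward x i hxi
    refine ⟨(i, b), ?_⟩
    have hlow : 1 / nrm x ≤ kk x := by
      by_cases h9 : 9 ≤ nsq x
      · refine le_trans ?_ (le_max_right _ _)
        have h3 : f2 x = 1 / Real.sqrt ((nsq x : ℝ) - 2) := by
          unfold f2
          rw [if_pos h9]
        have h9' : (9 : ℝ) ≤ nsq x := by exact_mod_cast h9
        rw [h3]
        unfold nrm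
        apply one_div_le_one_div_of_le (Real.sqrt_pos.2 (by linarith))
        apply Real.sqrt_le_sqrt
        linarith
      · refine le_trans ?_ (le_max_left _ _)
        refine le_trans ?_ (small x (by omega))
        rw [div_le_one hs]
        exact hs1
    by_cases hf : f2 x ≤ f1 x
    · have e1 : kk x = f1 x := max_eq_left hf
      have e2 : 6 * f1 x ≤ kk (x + dir (i, b)) := by
        rw [← f1_step hb1]
        exact le_max_left _ _
      have e3 : 1 / (6 ^ 6 * nrm x ^ 2) ≤ 1 / nrm x := by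
        apply one_div_le_one_div_of_le hs
        nlinarith
      have e4 : 0 ≤ f1 x := (f1_pos x).le
      rw [e1] at hlow ⊢
      linarith
    · push Not at hf
      have h16 : 16 ≤ nsq x := by
        by_contra hc
        have := small x (by omega)
        have := f2_le_one x
        linarith
      have e1 : kk x = f2 x := max_eq_right hf.le
      have h9n := nbr x h16 (i, b)
      have e2 : f2 x = 1 / Real.sqrt ((nsq x : ℝ) - 2) := by
        unfold f2
        rw [if_pos (by omega)]
      have e3 : 1 / Real.sqrt ((nsq (x + dir (i, b)) : ℝ) - 2) ≤ kk (x + dir (i, b)) := by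
        have : f2 (x + dir (i, b)) = 1 / Real.sqrt ((nsq (x + dir (i, b)) : ℝ) - 2) := by
          unfold f2
          rw [if_pos h9n]
        rw [← this]
        exact le_max_right _ _
      have h16' : (16 : ℝ) ≤ nsq x := by exact_mod_cast h16
      have h9n' : (9 : ℝ) ≤ nsq (x + dir (i, b)) := by exact_mod_cast h9n
      have hb2' : (nsq (x + dir (i, b)) : ℝ) + 2 * ((x i).natAbs : ℝ) = nsq x + 1 := by
        exact_mod_cast hb2
      have h3a' : (nsq x : ℝ) ≤ 3 * ((x i).natAbs : ℝ) ^ 2 := by exact_mod_cast h3a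
      rw [e1, e2]
      refine le_trans ?_ (sub_le_sub_right e3 _)
      have ht : 0 < Real.sqrt ((nsq x : ℝ) - 2) := Real.sqrt_pos.2 (by linarith)
      have htq : Real.sqrt ((nsq x : ℝ) - 2) ^ 2 = (nsq x : ℝ) - 2 := Real.sq_sqrt (by linarith)
      have ht' : 0 < Real.sqrt ((nsq (x + dir (i, b)) : ℝ) - 2) := Real.sqrt_pos.2 (by linarith)
      have htq' : Real.sqrt ((nsq (x + dir (i, b)) : ℝ) - 2) ^ 2 =
        (nsq (x + dir (i, b)) : ℝ) - 2 := Real.sq_sqrt (by linarith)
      have hA : (1 : ℝ) ≤ ((x i).natAbs : ℝ) := by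
        have : 1 ≤ (x i).natAbs := Int.natAbs_pos.2 hxi
        exact_mod_cast this
      set t := Real.sqrt ((nsq x : ℝ) - 2)
      set t' := Real.sqrt ((nsq (x + dir (i, b)) : ℝ) - 2)
      set a : ℝ := ((x i).natAbs : ℝ)
      set s := nrm x
      have hts : t ≤ s := by
        apply le_sq ?_ hs.le
        rw [htq, hsq]
        linarith
      have ht't : t' ≤ t := by
        apply le_sq ?_ ht.le
        rw [htq, htq']
        linarith
      have has : s ≤ 2 * a := by
        apply le_sq ?_ (by linarith)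
        rw [hsq]
        nlinarith
      have hd : (t - t') * (t + t') = 2 * a - 1 := by
        have : (t - t') * (t + t') = t ^ 2 - t' ^ 2 := by ring
        rw [this, htq, htq']
        linarith
      have h5 : 1 / t' - 1 / t = (t - t') / (t' * t) := by
        field_simp
      rw [h5, div_le_div_iff₀ (by positivity) (by positivity), one_mul]
      -- t' * t ≤ (t - t') * (6^6 s^2)
      have h6 : t' * t * (t + t') ≤ 2 * s ^ 3 := by
        have : t' * t ≤ s * s := mul_le_mul (ht't.trans hts) hts ht.le hs.le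
        have h7 : t + t' ≤ 2 * s := by linarith
        calc t' * t * (t + t') ≤ (s * s) * (2 * s) :=
              mul_le_mul this h7 (by positivity) (by positivity)
          _ = 2 * s ^ 3 := by ring
      have h8 : 2 * s ^ 3 ≤ (2 * a - 1) * (6 ^ 6 * s ^ 2) := by
        have h9 : s ≤ 2 * (2 * a - 1) := by linarith
        have h10 : 0 ≤ s ^ 2 := by positivity
        nlinarith [mul_le_mul_of_nonneg_right h9 h10]
      have h11 : 0 < t + t' := by linarith
      have h12 : t' * t * (t + t') ≤ (t - t') * (6 ^ 6 * s ^ 2) * (t + t') := by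
        calc t' * t * (t + t') ≤ (2 * a - 1) * (6 ^ 6 * s ^ 2) := h6.trans h8
          _ = (t - t') * (6 ^ 6 * s ^ 2) * (t + t') := by rw [← hd]; ring
      exact le_of_mul_le_mul_right h12 h11

end Pool.Agent.K1H52.UB.KER
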